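import Pool.Agent.N671.DA.Sys

/-!
# Systems of linear forms: exceptional tuples of natural numbers
-/

set_option autoImplicit false

namespace Pool.Agent.N671.DA

open Finset Classical

/-- the count of the integer vectors whose absolute values belong to a set of tuples -/
theorem thin_natAbs {k : ℕ} (hk : 1 ≤ k) (W : Set (Fin k → ℕ)) {c₀ C₀ : ℝ} (hc1 : c₀ ≤ 1)
    (hW : ∀ T : ℕ, 1 ≤ T → (({w : Fin k → ℕ | (∀ i, 2 ≤ w i ∧ w i ≤ T) ∧ w ∈ W}.ncard : ℕ) : ℝ) ≤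
      C₀ * (T : ℝ) ^ ((k : ℝ) - c₀)) :
    Thin {q : Fin k → ℤ | ¬ ((∀ i, 2 ≤ (q i).natAbs) ∧ (fun i => (q i).natAbs) ∉ W)} ((k : ℝ) - c₀) := by
  intro ε hε
  have hk1 : (1 : ℝ) ≤ k := by exact_mod_cast hk
  refine ⟨2 ^ k * (|C₀| + k * 3 ^ k), fun X hX => ?_⟩
  have hX1 : 1 ≤ ⌊X⌋₊ := Nat.le_floor (by exact_mod_cast hX)
  have hXf : (⌊X⌋₊ : ℝ) ≤ X := Nat.floor_le (by linarith)
  have hX0 : (0 : ℝ) < X := by linarith
  obtain ⟨T, hT⟩ : ∃ T : ℕ, T = ⌊X⌋₊ := ⟨_, rfl⟩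
  rw [← hT] at hX1 hXf
  have hT1 : (1 : ℝ) ≤ T := by exact_mod_cast hX1
  -- the tuples of natural numbers
  obtain ⟨A, hA⟩ : ∃ A : Set (Fin k → ℕ), A = {w | (∀ i, w i ≤ T) ∧ ¬ ((∀ i, 2 ≤ w i) ∧ w ∉ W)} := ⟨_, rfl⟩
  have hboxfin : {w : Fin k → ℕ | ∀ i, w i ≤ T}.Finite := by
    refine (Finset.finite_toSet (Fintype.piFinset (fun _ : Fin k => range (T + 1)))).subset ?_
    intro w hw
    rw [mem_coe, Fintype.mem_piFinset]
    intro i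
    rw [mem_range]
    have := hw i
    omega
  have hAfin : A.Finite := by
    rw [hA]
    exact hboxfin.subset fun w hw => hw.1
  have hA1 : ((A.ncard : ℕ) : ℝ) ≤ (|C₀| + k * 3 ^ k) * (T : ℝ) ^ ((k : ℝ) - c₀) := by
    have hsub : A ⊆ {w : Fin k → ℕ | (∀ i, 2 ≤ w i ∧ w i ≤ T) ∧ w ∈ W} ∪
        ⋃ i0 ∈ (univ : Finset (Fin k)), {w : Fin k → ℕ | (∀ i, w i ≤ T) ∧ w i0 ≤ 1} := by
      intro w hw
      rw [hA] at hw
      obtain ⟨h1, h2⟩ := hw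
      by_cases h3 : ∀ i, 2 ≤ w i
      · left
        refine ⟨fun i => ⟨h3 i, h1 i⟩, ?_⟩
        by_contra h4
        exact h2 ⟨h3, h4⟩
      · right
        push Not at h3
        obtain ⟨i0, hi0⟩ := h3
        simp only [mem_univ, Set.iUnion_true, Set.mem_iUnion]
        exact ⟨i0, h1, by omega⟩
    have hone : ∀ i0 : Fin k, (({w : Fin k → ℕ | (∀ i, w i ≤ T) ∧ w i0 ≤ 1}.ncard : ℕ) : ℝ) ≤
        3 ^ k * (T : ℝ) ^ ((k : ℝ) - c₀) := by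
      intro i0
      have hsub2 : {w : Fin k → ℕ | (∀ i, w i ≤ T) ∧ w i0 ≤ 1} ⊆
          ((Fintype.piFinset (fun i : Fin k => if i = i0 then range 2 else range (T + 1)) :
            Finset (Fin k → ℕ)) : Set (Fin k → ℕ)) := by
        rintro w ⟨h1, h2⟩
        rw [mem_coe, Fintype.mem_piFinset]
        intro i
        by_cases hi : i = i0
        · subst hi
          rw [if_pos rfl, mem_range]
          omega
        · rw [if_neg hi, mem_range]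
          have := h1 i
          omega
      have h3 := Set.ncard_le_ncard hsub2 (Finset.finite_toSet _)
      rw [Set.ncard_coe_finset, Fintype.card_piFinset] at h3
      have h4 : ∏ i : Fin k, ((if i = i0 then range 2 else range (T + 1)) : Finset ℕ).card ≤ 3 ^ k * T ^ (k - 1) := by
        rw [← Finset.mul_prod_erase _ _ (mem_univ i0), if_pos rfl, card_range]
        have h5 : ∏ x ∈ univ.erase i0, ((if x = i0 then range 2 else range (T + 1)) : Finset ℕ).card =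
            (T + 1) ^ (k - 1) := by
          have h5a : (univ.erase i0).card = k - 1 := by
            rw [card_erase_of_mem (mem_univ i0), card_univ, Fintype.card_fin]
          rw [← h5a, ← prod_const]
          refine prod_congr rfl fun x hx => ?_
          rw [if_neg (ne_of_mem_erase hx), card_range]
        rw [h5]
        calc 2 * (T + 1) ^ (k - 1) ≤ 3 * (3 * T) ^ (k - 1) := by
              gcongr
              · norm_num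
              · omega
          _ = 3 ^ (k - 1 + 1) * T ^ (k - 1) := by ring
          _ = 3 ^ k * T ^ (k - 1) := by rw [Nat.sub_add_cancel hk]
      have h6 : (({w : Fin k → ℕ | (∀ i, w i ≤ T) ∧ w i0 ≤ 1}.ncard : ℕ) : ℝ) ≤ 3 ^ k * (T : ℝ) ^ (k - 1) := by
        exact_mod_cast h3.trans h4
      refine h6.trans ?_
      have h7 : (T : ℝ) ^ (k - 1) ≤ (T : ℝ) ^ ((k : ℝ) - c₀) := by
        rw [← Real.rpow_natCast]
        apply Real.rpow_le_rpow_of_exponent_le hT1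
        rw [Nat.cast_sub hk, Nat.cast_one]
        linarith
      gcongr
    have hWfin : {w : Fin k → ℕ | (∀ i, 2 ≤ w i ∧ w i ≤ T) ∧ w ∈ W}.Finite :=
      hboxfin.subset fun w hw i => (hw.1 i).2
    have hUfin : (⋃ i0 ∈ (univ : Finset (Fin k)), {w : Fin k → ℕ | (∀ i, w i ≤ T) ∧ w i0 ≤ 1}).Finite :=
      hboxfin.subset fun w hw => by
        simp only [mem_univ, Set.iUnion_true, Set.mem_iUnion] at hw
        obtain ⟨i0, hi0⟩ := hw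
        exact hi0.1
    have h8 := (Set.ncard_le_ncard hsub (hWfin.union hUfin)).trans (Set.ncard_union_le _ _)
    have h9 : (⋃ i0 ∈ (univ : Finset (Fin k)), {w : Fin k → ℕ | (∀ i, w i ≤ T) ∧ w i0 ≤ 1}).ncard ≤
        ∑ i0 : Fin k, {w : Fin k → ℕ | (∀ i, w i ≤ T) ∧ w i0 ≤ 1}.ncard :=
      Finset.set_ncard_biUnion_le _ _
    have h10 : ((A.ncard : ℕ) : ℝ) ≤ (({w : Fin k → ℕ | (∀ i, 2 ≤ w i ∧ w i ≤ T) ∧ w ∈ W}.ncard : ℕ) : ℝ) +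
        ∑ i0 : Fin k, (({w : Fin k → ℕ | (∀ i, w i ≤ T) ∧ w i0 ≤ 1}.ncard : ℕ) : ℝ) := by
      exact_mod_cast h8.trans (Nat.add_le_add_left h9 _)
    have h11 : ∑ i0 : Fin k, (({w : Fin k → ℕ | (∀ i, w i ≤ T) ∧ w i0 ≤ 1}.ncard : ℕ) : ℝ) ≤
        k * (3 ^ k * (T : ℝ) ^ ((k : ℝ) - c₀)) := by
      refine (sum_le_card_nsmul _ _ _ fun i0 _ => hone i0).trans ?_
      rw [card_univ, Fintype.card_fin, nsmul_eq_mul]
    have h12 := hW T hX1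
    have h13 : C₀ * (T : ℝ) ^ ((k : ℝ) - c₀) ≤ |C₀| * (T : ℝ) ^ ((k : ℝ) - c₀) :=
      mul_le_mul_of_nonneg_right (le_abs_self _) (by positivity)
    calc ((A.ncard : ℕ) : ℝ) ≤ |C₀| * (T : ℝ) ^ ((k : ℝ) - c₀) + k * (3 ^ k * (T : ℝ) ^ ((k : ℝ) - c₀)) := by
          linarith
      _ = _ := by ring
  -- the integer vectors
  have hcard : ({q : Fin k → ℤ | q ∈ {q : Fin k → ℤ | ¬ ((∀ i, 2 ≤ (q i).natAbs) ∧ (fun i => (q i).natAbs) ∉ W)} ∧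
      ∀ i, |(q i : ℝ)| ≤ X}.ncard) ≤ 2 ^ k * A.ncard := by
    obtain ⟨φ, hφ⟩ : ∃ φ : (Fin k → ℤ) → (Fin k → Bool) × (Fin k → ℕ),
      φ = fun q => (fun i => decide (0 ≤ q i), fun i => (q i).natAbs) := ⟨_, rfl⟩
    have hinj : Function.Injective φ := by
      intro q q' h
      rw [hφ] at h
      simp only [Prod.mk.injEq] at h
      obtain ⟨h1, h2⟩ := h
      funext i
      have h3 : (0 ≤ q i) ↔ (0 ≤ q' i) := decide_eq_decide.1 (congrFun h1 i)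
      have h4 : (q i).natAbs = (q' i).natAbs := congrFun h2 i
      omega
    have hmaps : Set.MapsTo φ {q : Fin k → ℤ | q ∈ {q : Fin k → ℤ | ¬ ((∀ i, 2 ≤ (q i).natAbs) ∧
        (fun i => (q i).natAbs) ∉ W)} ∧ ∀ i, |(q i : ℝ)| ≤ X} ((Set.univ : Set (Fin k → Bool)) ×ˢ A) := by
      rintro q ⟨h1, h2⟩
      rw [hφ, hA]
      refine ⟨Set.mem_univ _, fun i => ?_, h1⟩
      simp only
      rw [hT]
      apply Nat.le_floor
      have h3 := h2 i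
      have h4 : (((q i).natAbs : ℕ) : ℝ) = |(q i : ℝ)| := by
        rw [Nat.cast_natAbs, Int.cast_abs]
      rw [h4]
      exact h3
    have h1 := Set.ncard_le_ncard_of_injOn φ hmaps hinj.injOn (Set.finite_univ.prod hAfin)
    rw [Set.ncard_prod, Set.ncard_univ, Nat.card_eq_fintype_card, Fintype.card_fun, Fintype.card_bool,
      Fintype.card_fin] at h1
    exact h1
  calc (({q : Fin k → ℤ | q ∈ {q : Fin k → ℤ | ¬ ((∀ i, 2 ≤ (q i).natAbs) ∧ (fun i => (q i).natAbs) ∉ W)} ∧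
      ∀ i, |(q i : ℝ)| ≤ X}.ncard : ℕ) : ℝ) ≤ 2 ^ k * (A.ncard : ℝ) := by exact_mod_cast hcard
    _ ≤ 2 ^ k * ((|C₀| + k * 3 ^ k) * (T : ℝ) ^ ((k : ℝ) - c₀)) := by gcongr
    _ ≤ 2 ^ k * ((|C₀| + k * 3 ^ k) * X ^ ((k : ℝ) - c₀ + ε)) := by
        have h1 : (T : ℝ) ^ ((k : ℝ) - c₀) ≤ X ^ ((k : ℝ) - c₀ + ε) := by
          calc (T : ℝ) ^ ((k : ℝ) - c₀) ≤ X ^ ((k : ℝ) - c₀) := Real.rpow_le_rpow (by linarith) hXf (by linarith)
            _ ≤ X ^ ((k : ℝ) - c₀ + ε) := Real.rpow_le_rpow_of_exponent_le hX (by linarith)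
        gcongr
    _ = _ := by ring

/-- **Tool for tuples.** `W` has at most `C₀ T ^ (k - c₀)` elements with coordinates in `[2, T]`. For all systems `α` of
`m` linear forms in `k` variables outside a set of dimension at most `(k - 1) m + (m + k - c₀) / (1 + τ)` and all `c`, for all
large integer vectors `q` with `‖(q α)_j - β_j‖ ≤ c |q| ^ (-τ)` for all `j` all `|q_i| ≥ 2` and `(|q_1|, …, |q_k|) ∉ W`. -/
theorem approx_tuples {k m : ℕ} (hk : 1 ≤ k) (W : Set (Fin k → ℕ)) {c₀ C₀ : ℝ} (hc1 : c₀ ≤ 1)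
    (hW : ∀ T : ℕ, 1 ≤ T → (({w : Fin k → ℕ | (∀ i, 2 ≤ w i ∧ w i ≤ T) ∧ w ∈ W}.ncard : ℕ) : ℝ) ≤
      C₀ * (T : ℝ) ^ ((k : ℝ) - c₀)) (β : Fin m → ℝ) {τ : ℝ} (hτ : 0 < τ) :
    ∃ E : Set (Fin k × Fin m → ℝ),
      dimH E ≤ ENNReal.ofReal (((k : ℝ) - 1) * m + (m + ((k : ℝ) - c₀)) / (1 + τ)) ∧
      ∀ α, α ∉ E → ∀ c : ℝ, ∃ Q : ℝ, ∀ q : Fin k → ℤ, Q ≤ ‖q‖ → Near α β q (c * ‖q‖ ^ (-τ)) →
        (∀ i, 2 ≤ (q i).natAbs) ∧ (fun i => (q i).natAbs) ∉ W := by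
  have hk1 : (1 : ℝ) ≤ k := by exact_mod_cast hk
  obtain ⟨E, hE, hE2⟩ := dim_sys hk _ (s := (k : ℝ) - c₀) (by linarith) hτ (thin_natAbs hk W hc1 hW) β
  refine ⟨E, hE, fun α hα c => ?_⟩
  have hfin := (hE2 α hα c).image (fun q : Fin k → ℤ => ‖q‖)
  obtain ⟨B, hB⟩ := hfin.bddAbove
  refine ⟨B + 1, fun q hq h1 => ?_⟩
  by_contra hcon
  have : ‖q‖ ≤ B := hB ⟨q, ⟨hcon, h1⟩, rfl⟩
  linarith

/-- **Tool for integer vectors.** -/
theorem approx_vectors {k m : ℕ} (hk : 1 ≤ k) (W : Set (Fin k → ℤ)) {s : ℝ} (hs : 0 ≤ s) (hW : Thin W s)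
    (β : Fin m → ℝ) {τ : ℝ} (hτ : 0 < τ) :
    ∃ E : Set (Fin k × Fin m → ℝ), dimH E ≤ ENNReal.ofReal (((k : ℝ) - 1) * m + (m + s) / (1 + τ)) ∧
      ∀ α, α ∉ E → ∀ c : ℝ, ∃ Q : ℝ, ∀ q : Fin k → ℤ, Q ≤ ‖q‖ → Near α β q (c * ‖q‖ ^ (-τ)) → q ∉ W := by
  obtain ⟨E, hE, hE2⟩ := dim_sys hk W hs hτ hW β
  refine ⟨E, hE, fun α hα c => ?_⟩
  have hfin := (hE2 α hα c).image (fun q : Fin k → ℤ => ‖q‖)
  obtain ⟨B, hB⟩ := hfin.bddAbove
  refine ⟨B + 1, fun q hq h1 hcon => ?_⟩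
  have : ‖q‖ ≤ B := hB ⟨q, ⟨hcon, h1⟩, rfl⟩
  linarith

/-- a power saving at the natural numbers suffices -/
theorem thin_of_nat {k : ℕ} {W : Set (Fin k → ℤ)} {s C₀ : ℝ} (hs : 0 ≤ s)
    (hW : ∀ T : ℕ, 1 ≤ T → (({q : Fin k → ℤ | (∀ i, |q i| ≤ (T : ℤ)) ∧ q ∈ W}.ncard : ℕ) : ℝ) ≤ C₀ * (T : ℝ) ^ s) :
    Thin W s := by
  intro ε hε
  refine ⟨|C₀|, fun X hX => ?_⟩
  have hX1 : 1 ≤ ⌊X⌋₊ := Nat.le_floor (by exact_mod_cast hX)
  have hXf : (⌊X⌋₊ : ℝ) ≤ X := Nat.floor_le (by linarith)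
  have heq : {q : Fin k → ℤ | q ∈ W ∧ ∀ i, |(q i : ℝ)| ≤ X} =
      {q : Fin k → ℤ | (∀ i, |q i| ≤ ((⌊X⌋₊ : ℕ) : ℤ)) ∧ q ∈ W} := by
    ext q
    have hiff : ∀ i, |(q i : ℝ)| ≤ X ↔ |q i| ≤ ((⌊X⌋₊ : ℕ) : ℤ) := by
      intro i
      have e1 : |(q i : ℝ)| = (((q i).natAbs : ℕ) : ℝ) := by rw [Nat.cast_natAbs, Int.cast_abs]
      rw [e1, Int.abs_eq_natAbs]
      constructor
      · intro h
        exact_mod_cast Nat.le_floor h
      · intro h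
        have h2 : (q i).natAbs ≤ ⌊X⌋₊ := by exact_mod_cast h
        exact le_trans (by exact_mod_cast h2) hXf
    constructor
    · rintro ⟨h1, h2⟩
      exact ⟨fun i => (hiff i).1 (h2 i), h1⟩
    · rintro ⟨h1, h2⟩
      exact ⟨h2, fun i => (hiff i).2 (h1 i)⟩
  rw [heq]
  calc (({q : Fin k → ℤ | (∀ i, |q i| ≤ ((⌊X⌋₊ : ℕ) : ℤ)) ∧ q ∈ W}.ncard : ℕ) : ℝ)
      ≤ C₀ * ((⌊X⌋₊ : ℕ) : ℝ) ^ s := hW _ hX1
    _ ≤ |C₀| * ((⌊X⌋₊ : ℕ) : ℝ) ^ s := mul_le_mul_of_nonneg_right (le_abs_self _) (by positivity)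
    _ ≤ |C₀| * X ^ (s + ε) := by
        have h1 : ((⌊X⌋₊ : ℕ) : ℝ) ^ s ≤ X ^ (s + ε) := by
          calc ((⌊X⌋₊ : ℕ) : ℝ) ^ s ≤ X ^ s := Real.rpow_le_rpow (by positivity) hXf hs
            _ ≤ X ^ (s + ε) := Real.rpow_le_rpow_of_exponent_le hX (by linarith)
        gcongr

end Pool.Agent.N671.DA
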