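import Pool.Agent.N671.DA.Nat

set_option autoImplicit false

/-! Diophantine approximation with denominators near a thin set (helper671). `Expanding` and `nearG_count` are copied from
`Pool.Agent.N733.TG.K` of helper733 (to keep the closure small). -/

namespace Pool.Agent.N671.DA

open Finset Classical

/-- the steps of `G` are at least a positive constant, and `G` grows at most like `v ^ d`, `d ≥ 1` -/
structure Expanding (G : ℕ → ℝ) (d : ℝ) : Prop where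
  one_le : 1 ≤ d
  step : ∃ a : ℝ, 0 < a ∧ ∀ v : ℕ, 1 ≤ v → a ≤ G (v + 1) - G v
  growth : ∃ C : ℝ, ∀ v : ℕ, 1 ≤ v → G v ≤ C * (v : ℝ) ^ d

lemma step_sum {G : ℕ → ℝ} {a : ℝ} (h : ∀ v : ℕ, 1 ≤ v → a ≤ G (v + 1) - G v) {u v : ℕ} (hu : 1 ≤ u) (huv : u ≤ v) :
    a * ((v - u : ℕ) : ℝ) ≤ G v - G u := by
  induction v, huv using Nat.le_induction with
  | base => simp
  | succ n hn ih =>
    have h1 := h n (hu.trans hn)
    have h2 : ((n + 1 - u : ℕ) : ℝ) = ((n - u : ℕ) : ℝ) + 1 := by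
      rw [show n + 1 - u = (n - u) + 1 by omega]
      push_cast
      ring
    rw [h2]
    linarith

/-- the numbers `v` such that `G v` is close to the height of an element of `S` -/
def NearG {T : Type*} (S : Set T) (h : T → ℝ) (G : ℕ → ℝ) (κ : ℝ) : Set ℕ := {v | ∃ t ∈ S, |h t - G v| ≤ (v : ℝ) ^ κ}

lemma nearG_count {T : Type*} (S : Set T) (h : T → ℝ) {G : ℕ → ℝ} {d : ℝ} (hG : Expanding G d) {s κ : ℝ} (hs : 0 ≤ s)
    (hκ : 0 ≤ κ) (hκ1 : κ ≤ 1)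
    (hS : ∃ C : ℝ, ∀ X : ℝ, 1 ≤ X →
      {t | t ∈ S ∧ h t ≤ X}.Finite ∧ ({t | t ∈ S ∧ h t ≤ X}.ncard : ℝ) ≤ C * X ^ s) :
    ∃ K : ℝ, ∀ X : ℕ, 1 ≤ X → (((Icc 1 X).filter (fun v => v ∈ NearG S h G κ)).card : ℝ) ≤
      K * (X : ℝ) ^ (d * s + κ) := by
  obtain ⟨hd, ⟨a, ha, hstep⟩, ⟨C₁, hC₁⟩⟩ := hG
  obtain ⟨C, hC⟩ := hS
  obtain ⟨C₂, hC₂⟩ : ∃ C₂ : ℝ, C₂ = |C₁| + 1 := ⟨_, rfl⟩
  have hC₂1 : 1 ≤ C₂ := by rw [hC₂]; linarith [abs_nonneg C₁]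
  refine ⟨|C| * C₂ ^ s * (2 / a + 1), fun X hX => ?_⟩
  have hX1 : (1 : ℝ) ≤ X := by exact_mod_cast hX
  obtain ⟨Z, hZ⟩ : ∃ Z : ℝ, Z = C₂ * (X : ℝ) ^ d := ⟨_, rfl⟩
  have hXd : (1 : ℝ) ≤ (X : ℝ) ^ d := Real.one_le_rpow hX1 (by linarith)
  have hZ1 : 1 ≤ Z := by
    rw [hZ]
    exact one_le_mul_of_one_le_of_one_le hC₂1 hXd
  obtain ⟨hfin, hcard⟩ := hC Z hZ1
  have hXκ : (1 : ℝ) ≤ (X : ℝ) ^ κ := Real.one_le_rpow hX1 hκ
  obtain ⟨W, hW⟩ : ∃ W : T → Finset ℕ, W = fun t : T => (Icc 1 X).filter (fun v : ℕ => |h t - G v| ≤ (X : ℝ) ^ κ) :=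
    ⟨_, rfl⟩
  have hsub : (Icc 1 X).filter (fun v => v ∈ NearG S h G κ) ⊆ hfin.toFinset.biUnion W := by
    intro v hv
    rw [mem_filter, mem_Icc] at hv
    obtain ⟨⟨hv1, hvX⟩, t, htS, ht⟩ := hv
    have hv1' : (1 : ℝ) ≤ v := by exact_mod_cast hv1
    have hvX' : (v : ℝ) ≤ X := by exact_mod_cast hvX
    have e1 : (v : ℝ) ^ κ ≤ (X : ℝ) ^ κ := Real.rpow_le_rpow (by linarith) hvX' hκ
    rw [mem_biUnion]
    refine ⟨t, ?_, ?_⟩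
    · rw [Set.Finite.mem_toFinset]
      refine ⟨htS, ?_⟩
      have e3 := (abs_le.1 ht).2
      have e4 : G v ≤ |C₁| * (X : ℝ) ^ d := by
        calc G v ≤ C₁ * (v : ℝ) ^ d := hC₁ v hv1
          _ ≤ |C₁| * (v : ℝ) ^ d := mul_le_mul_of_nonneg_right (le_abs_self _) (by positivity)
          _ ≤ |C₁| * (X : ℝ) ^ d := mul_le_mul_of_nonneg_left
              (Real.rpow_le_rpow (by linarith) hvX' (by linarith)) (abs_nonneg _)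
      have e5 : (X : ℝ) ^ κ ≤ (X : ℝ) ^ d := Real.rpow_le_rpow_of_exponent_le hX1 (by linarith)
      rw [hZ, hC₂]
      linarith
    · rw [hW, mem_filter, mem_Icc]
      exact ⟨⟨hv1, hvX⟩, ht.trans e1⟩
  have hTc : ∀ t : T, ((W t).card : ℝ) ≤ (2 / a + 1) * (X : ℝ) ^ κ := by
    intro t
    have h0 : (0 : ℝ) ≤ 2 * (X : ℝ) ^ κ / a := by positivity
    rcases (W t).eq_empty_or_nonempty with he | he
    · rw [he]
      simp only [card_empty, Nat.cast_zero]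
      positivity
    · obtain ⟨v0, hv0⟩ : ∃ v0, v0 = (W t).min' he := ⟨_, rfl⟩
      have hv0m : v0 ∈ W t := by rw [hv0]; exact min'_mem _ _
      have hs' : W t ⊆ Icc v0 (v0 + ⌊2 * (X : ℝ) ^ κ / a⌋₊) := by
        intro v hv
        have h1 : v0 ≤ v := by rw [hv0]; exact min'_le _ _ hv
        rw [mem_Icc]
        refine ⟨h1, ?_⟩
        rw [hW, mem_filter, mem_Icc] at hv hv0m
        have h2 := abs_le.1 hv.2
        have h3 := abs_le.1 hv0m.2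
        have h4 : ((v - v0 : ℕ) : ℝ) ≤ 2 * (X : ℝ) ^ κ / a := by
          rw [le_div_iff₀ ha]
          have := step_sum hstep hv0m.1.1 h1
          linarith [h2.1, h3.2]
        have := Nat.le_floor h4
        omega
      have h5 := card_le_card hs'
      rw [Nat.card_Icc] at h5
      have h6 : (((W t).card : ℕ) : ℝ) ≤ (⌊2 * (X : ℝ) ^ κ / a⌋₊ : ℝ) + 1 := by
        have : (W t).card ≤ ⌊2 * (X : ℝ) ^ κ / a⌋₊ + 1 := by omega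
        exact_mod_cast this
      have h7 := Nat.floor_le h0
      calc ((W t).card : ℝ) ≤ (⌊2 * (X : ℝ) ^ κ / a⌋₊ : ℝ) + 1 := h6
        _ ≤ 2 * (X : ℝ) ^ κ / a + (X : ℝ) ^ κ := by linarith
        _ = (2 / a + 1) * (X : ℝ) ^ κ := by ring
  have h1 : (((Icc 1 X).filter (fun v => v ∈ NearG S h G κ)).card : ℝ) ≤ ∑ t ∈ hfin.toFinset, ((W t).card : ℝ) := by
    have := (card_le_card hsub).trans card_biUnion_le
    exact_mod_cast this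
  refine h1.trans ((sum_le_sum (fun t _ => hTc t)).trans ?_)
  rw [sum_const, nsmul_eq_mul, ← Set.ncard_eq_toFinset_card _ hfin]
  have h3 : Z ^ s = C₂ ^ s * (X : ℝ) ^ (d * s) := by
    rw [hZ, Real.mul_rpow (by positivity) (by positivity), ← Real.rpow_mul (by positivity)]
  calc ({t | t ∈ S ∧ h t ≤ Z}.ncard : ℝ) * ((2 / a + 1) * (X : ℝ) ^ κ)
      ≤ (|C| * (C₂ ^ s * (X : ℝ) ^ (d * s))) * ((2 / a + 1) * (X : ℝ) ^ κ) := by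
        apply mul_le_mul_of_nonneg_right _ (by positivity)
        rw [← h3]
        exact hcard.trans (mul_le_mul_of_nonneg_right (le_abs_self _) (by positivity))
    _ = (|C| * C₂ ^ s * (2 / a + 1)) * ((X : ℝ) ^ (d * s) * (X : ℝ) ^ κ) := by ring
    _ = _ := by rw [← Real.rpow_add (by linarith)]


/-- **Main tool.** `S` has `O_ε (X ^ (s + ε))` elements of height at most `X`, `G` is expanding of growth `d`. For all `α` in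
`ℝ ^ m` outside a set of dimension at most `(m + d s + κ) / (1 + τ)` and all `c`, for all but finitely many `q` with
`‖q α_j - β_j‖ ≤ c q ^ (-τ)` for all `j`, no element of `S` has a height within `q ^ κ` of `G q`. -/
theorem approx_windows {T : Type*} (S : Set T) (h : T → ℝ) {G : ℕ → ℝ} {d : ℝ} (hG : Expanding G d) {s κ : ℝ}
    (hs : 0 ≤ s) (hκ : 0 ≤ κ) (hκ1 : κ ≤ 1)
    (hS : ∀ ε : ℝ, 0 < ε → ∃ C : ℝ, ∀ X : ℝ, 1 ≤ X →
      {t | t ∈ S ∧ h t ≤ X}.Finite ∧ ({t | t ∈ S ∧ h t ≤ X}.ncard : ℝ) ≤ C * X ^ (s + ε))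
    {m : ℕ} (β : Fin m → ℝ) {τ : ℝ} (hτ : 0 < τ) :
    ∃ E : Set (Fin m → ℝ), dimH E ≤ ENNReal.ofReal ((m + (d * s + κ)) / (1 + τ)) ∧
      ∀ α, α ∉ E → ∀ c : ℝ, ∃ Q : ℕ, ∀ q : ℕ, Q ≤ q → Solves α β q (c * (q : ℝ) ^ (-τ)) →
        ∀ t ∈ S, ¬ |h t - G q| ≤ (q : ℝ) ^ κ := by
  have hd := hG.one_le
  obtain ⟨E, hE, hE2⟩ := dim_nat (NearG S h G κ) (σ := d * s + κ) (τ := τ) (by positivity) hτ (by
    intro ε hε
    have hd0 : 0 < d := by linarith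
    obtain ⟨C, hC⟩ := hS (ε / d) (by positivity)
    obtain ⟨K, hK⟩ := nearG_count S h hG (s := s + ε / d) (κ := κ) (by positivity) hκ hκ1 ⟨C, hC⟩
    refine ⟨K, fun X hX => ?_⟩
    have h2 := hK X hX
    have e : d * (s + ε / d) + κ = d * s + κ + ε := by
      field_simp
      ring
    rw [e] at h2
    exact h2) β
  refine ⟨E, hE, fun α hα c => ?_⟩
  obtain ⟨B, hB⟩ := (hE2 α hα c).bddAbove
  refine ⟨B + 1, fun q hq hs2 t ht hcon => ?_⟩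
  have : q ≤ B := hB ⟨⟨t, ht, hcon⟩, hs2⟩
  omega

/-- the same for a set of positive integers (and `0`) -/
theorem approx_win_nat (P : Set ℕ) {G : ℕ → ℝ} {d : ℝ} (hG : Expanding G d) {s κ : ℝ} (hs : 0 ≤ s) (hκ : 0 ≤ κ)
    (hκ1 : κ ≤ 1)
    (hP : ∀ ε : ℝ, 0 < ε → ∃ C : ℝ, ∀ X : ℕ, 1 ≤ X →
      (((Ioc 0 X).filter (fun t => t ∈ P)).card : ℝ) ≤ C * (X : ℝ) ^ (s + ε))
    {m : ℕ} (β : Fin m → ℝ) {τ : ℝ} (hτ : 0 < τ) :
    ∃ E : Set (Fin m → ℝ), dimH E ≤ ENNReal.ofReal ((m + (d * s + κ)) / (1 + τ)) ∧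
      ∀ α, α ∉ E → ∀ c : ℝ, ∃ Q : ℕ, ∀ q : ℕ, Q ≤ q → Solves α β q (c * (q : ℝ) ^ (-τ)) →
        ∀ n : ℕ, (n = 0 ∨ n ∈ P) → ¬ |(n : ℝ) - G q| ≤ (q : ℝ) ^ κ := by
  obtain ⟨E, hE, hE2⟩ := approx_windows {t : ℕ | t = 0 ∨ t ∈ P} (fun t : ℕ => (t : ℝ)) hG hs hκ hκ1 (by
    intro ε hε
    obtain ⟨C, hC⟩ := hP ε hε
    refine ⟨|C| + 1, fun X hX => ?_⟩
    have hX1 : 1 ≤ ⌊X⌋₊ := Nat.le_floor (by exact_mod_cast hX)
    have hsub : {t : ℕ | t ∈ {t : ℕ | t = 0 ∨ t ∈ P} ∧ (t : ℝ) ≤ X} ⊆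
        (((Ioc 0 ⌊X⌋₊).filter (fun t => t ∈ P) ∪ {0} : Finset ℕ) : Set ℕ) := by
      rintro t ⟨ht, htX⟩
      have htf : t ≤ ⌊X⌋₊ := Nat.le_floor htX
      rw [coe_union, coe_singleton]
      rcases Nat.eq_zero_or_pos t with h0 | h0
      · right
        exact h0
      · left
        rw [coe_filter]
        refine ⟨mem_Ioc.2 ⟨h0, htf⟩, ?_⟩
        rcases ht with ht | ht
        · omega
        · exact ht
    have hfin := (Finset.finite_toSet ((Ioc 0 ⌊X⌋₊).filter (fun t => t ∈ P) ∪ {0} : Finset ℕ)).subset hsub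
    refine ⟨hfin, ?_⟩
    have h1 := Set.ncard_le_ncard hsub (Finset.finite_toSet _)
    rw [Set.ncard_coe_finset] at h1
    have h2 := h1.trans (card_union_le _ _)
    rw [card_singleton] at h2
    have h3 := hC ⌊X⌋₊ hX1
    have hXf : (⌊X⌋₊ : ℝ) ≤ X := Nat.floor_le (by linarith)
    have h4 : (1 : ℝ) ≤ X ^ (s + ε) := Real.one_le_rpow hX (by linarith)
    calc (({t : ℕ | t ∈ {t : ℕ | t = 0 ∨ t ∈ P} ∧ (t : ℝ) ≤ X}.ncard : ℕ) : ℝ)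
        ≤ (((Ioc 0 ⌊X⌋₊).filter (fun t => t ∈ P)).card : ℝ) + 1 := by exact_mod_cast h2
      _ ≤ |C| * X ^ (s + ε) + X ^ (s + ε) := by
          refine add_le_add ?_ h4
          calc (((Ioc 0 ⌊X⌋₊).filter (fun t => t ∈ P)).card : ℝ) ≤ C * (⌊X⌋₊ : ℝ) ^ (s + ε) := h3
            _ ≤ |C| * (⌊X⌋₊ : ℝ) ^ (s + ε) := mul_le_mul_of_nonneg_right (le_abs_self C) (by positivity)
            _ ≤ |C| * X ^ (s + ε) := by gcongr
      _ = (|C| + 1) * X ^ (s + ε) := by ring) β hτ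
  exact ⟨E, hE, hE2⟩

/-- objects `t` which are admissible are good if their height is near `G q` -/
theorem approx_good {T : Type*} (Adm Good : T → Prop) (h : T → ℝ) {G : ℕ → ℝ} {d : ℝ} (hG : Expanding G d) {s κ : ℝ}
    (hs : 0 ≤ s) (hκ : 0 ≤ κ) (hκ1 : κ ≤ 1)
    (hS : ∀ ε : ℝ, 0 < ε → ∃ C : ℝ, ∀ X : ℝ, 1 ≤ X →
      {t | (Adm t ∧ ¬ Good t) ∧ h t ≤ X}.Finite ∧ ({t | (Adm t ∧ ¬ Good t) ∧ h t ≤ X}.ncard : ℝ) ≤ C * X ^ (s + ε))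
    {m : ℕ} (β : Fin m → ℝ) {τ : ℝ} (hτ : 0 < τ) :
    ∃ E : Set (Fin m → ℝ), dimH E ≤ ENNReal.ofReal ((m + (d * s + κ)) / (1 + τ)) ∧
      ∀ α, α ∉ E → ∀ c : ℝ, ∃ Q : ℕ, ∀ q : ℕ, Q ≤ q → Solves α β q (c * (q : ℝ) ^ (-τ)) →
        ∀ t, Adm t → |h t - G q| ≤ (q : ℝ) ^ κ → Good t := by
  obtain ⟨E, hE, hE2⟩ := approx_windows {t | Adm t ∧ ¬ Good t} h hG hs hκ hκ1 hS β hτ
  refine ⟨E, hE, fun α hα c => ?_⟩
  obtain ⟨Q, hQ⟩ := hE2 α hα c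
  refine ⟨Q, fun q hq h1 t ht h2 => ?_⟩
  by_contra hcon
  exact hQ q hq h1 t ⟨ht, hcon⟩ h2

/-- the same for positive integers, with the count of TG `keep_good_nat` -/
theorem approx_good_nat (Adm Good : ℕ → Prop) {G : ℕ → ℝ} {d : ℝ} (hG : Expanding G d) {s κ : ℝ}
    (hs : 0 ≤ s) (hκ : 0 ≤ κ) (hκ1 : κ ≤ 1)
    (hP : ∀ ε : ℝ, 0 < ε → ∃ C : ℝ, ∀ X : ℕ, 1 ≤ X →
      ({t : ℕ | 1 ≤ t ∧ t ≤ X ∧ Adm t ∧ ¬ Good t}.ncard : ℝ) ≤ C * (X : ℝ) ^ (s + ε))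
    {m : ℕ} (β : Fin m → ℝ) {τ : ℝ} (hτ : 0 < τ) :
    ∃ E : Set (Fin m → ℝ), dimH E ≤ ENNReal.ofReal ((m + (d * s + κ)) / (1 + τ)) ∧
      ∀ α, α ∉ E → ∀ c : ℝ, ∃ Q : ℕ, ∀ q : ℕ, Q ≤ q → Solves α β q (c * (q : ℝ) ^ (-τ)) →
        ∀ n : ℕ, 1 ≤ n → Adm n → |(n : ℝ) - G q| ≤ (q : ℝ) ^ κ → Good n := by
  obtain ⟨E, hE, hE2⟩ := approx_win_nat {t | Adm t ∧ ¬ Good t} hG hs hκ hκ1 (fun ε hε => by
    obtain ⟨C, hC⟩ := hP ε hε
    refine ⟨C, fun X hX => le_trans (le_of_eq ?_) (hC X hX)⟩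
    congr 1
    rw [← Set.ncard_coe_finset]
    congr 1
    ext t
    simp only [coe_filter, mem_Ioc, Set.mem_ofPred_eq]
    constructor
    · rintro ⟨⟨h1, h2⟩, h3⟩
      exact ⟨h1, h2, h3⟩
    · rintro ⟨h1, h2, h3⟩
      exact ⟨⟨h1, h2⟩, h3⟩) β hτ
  refine ⟨E, hE, fun α hα c => ?_⟩
  obtain ⟨Q, hQ⟩ := hE2 α hα c
  refine ⟨Q, fun q hq h1 n hn ha h2 => ?_⟩
  by_contra hcon
  exact hQ q hq h1 n (Or.inr ⟨ha, hcon⟩) h2

theorem expanding_pow {α d : ℝ} (hα : 0 < α) (hd : 1 ≤ d) : Expanding (fun v => α * (v : ℝ) ^ d) d where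
  one_le := hd
  step := ⟨α, hα, fun v hv => by
    have hv1 : (1 : ℝ) ≤ v := by exact_mod_cast hv
    have h1 : (v : ℝ) ^ d + 1 ≤ ((v : ℝ) + 1) ^ d := by
      have e1 : (v : ℝ) ^ d = (v : ℝ) ^ (d - 1) * v := by
        rw [← Real.rpow_add_one (by linarith)]
        ring_nf
      have e2 : ((v : ℝ) + 1) ^ d = ((v : ℝ) + 1) ^ (d - 1) * (v + 1) := by
        rw [← Real.rpow_add_one (by linarith)]
        ring_nf
      have e3 : (v : ℝ) ^ (d - 1) ≤ ((v : ℝ) + 1) ^ (d - 1) := Real.rpow_le_rpow (by linarith) (by linarith) (by linarith)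
      have e4 : 1 ≤ ((v : ℝ) + 1) ^ (d - 1) := Real.one_le_rpow (by linarith) (by linarith)
      rw [e1, e2]
      nlinarith
    push_cast
    nlinarith⟩
  growth := ⟨α, fun v _ => le_rfl⟩

end Pool.Agent.N671.DA
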