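import Pool.Agent.N671.DA.Tup

/-!
# Systems of linear forms: exceptional integer matrices
-/

set_option autoImplicit false

namespace Pool.Agent.N671.DA

open Finset

/-- the matrix with the coordinates of `v` -/
def mat {n k : ℕ} (v : Fin (n * k) → ℤ) : Fin n → Fin k → ℚ := fun j i => ((v (finProdFinEquiv (j, i)) : ℤ) : ℚ)

theorem mat_injective {n k : ℕ} : Function.Injective (mat (n := n) (k := k)) := by
  intro u v huv
  funext t
  have h := congrFun (congrFun huv (finProdFinEquiv.symm t).1) (finProdFinEquiv.symm t).2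
  simpa only [mat, Prod.mk.eta, Equiv.apply_symm_apply, Int.cast_inj] using h

open Classical in
/-- **Tool for matrices.** For all finite sets `A` at most `C₀ |A| ^ (n k - δ k)` matrices with entries in `A` have the
property `P`. For all systems `α` of `h` linear forms in `n k` variables outside a set of dimension at most
`(n k - 1) h + (h + n k - δ k) / (1 + τ)` and all `c`, no large integer vector `v` with `‖(v α)_j - β_j‖ ≤ c |v| ^ (-τ)` for
all `j` is the vector of the entries of a matrix with the property `P`. -/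
theorem approx_matrices {n k h : ℕ} (hnk : 1 ≤ n * k) (P : (Fin n → Fin k → ℚ) → Prop) {C₀ δ : ℝ} (hC₀ : 0 ≤ C₀)
    (hδ : 0 < δ) (hδ1 : δ ≤ 1)
    (hP : ∀ A : Finset ℚ, A.Nonempty → (((Fintype.piFinset fun _ : Fin n => Fintype.piFinset fun _ : Fin k => A).filter
      (fun a => P a)).card : ℝ) ≤ C₀ * (A.card : ℝ) ^ ((n * k : ℝ) - δ * k)) (β : Fin h → ℝ) {τ : ℝ} (hτ : 0 < τ) :
    ∃ E : Set (Fin (n * k) × Fin h → ℝ),
      dimH E ≤ ENNReal.ofReal (((n : ℝ) * k - 1) * h + (h + ((n : ℝ) * k - δ * k)) / (1 + τ)) ∧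
      ∀ α, α ∉ E → ∀ c : ℝ, ∃ Q : ℝ, ∀ v : Fin (n * k) → ℤ, Q ≤ ‖v‖ → Near α β v (c * ‖v‖ ^ (-τ)) → ¬ P (mat v) := by
  have hn : (1 : ℝ) ≤ n := by
    have : 1 ≤ n := by
      rcases Nat.eq_zero_or_pos n with h0 | h0
      · rw [h0, zero_mul] at hnk
        omega
      · exact h0
    exact_mod_cast this
  have hk0 : (0 : ℝ) ≤ k := Nat.cast_nonneg k
  have hs : 0 ≤ (n : ℝ) * k - δ * k := by
    have : δ * (k : ℝ) ≤ n * k := mul_le_mul_of_nonneg_right (hδ1.trans hn) hk0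
    linarith
  have hT : Thin {v : Fin (n * k) → ℤ | P (mat v)} ((n : ℝ) * k - δ * k) := by
    refine thin_of_nat (C₀ := C₀ * 3 ^ ((n : ℝ) * k - δ * k)) hs fun X hX => ?_
    obtain ⟨A, hA⟩ : ∃ A : Finset ℚ, A = (Finset.Icc (-(X : ℤ)) X).image (fun z : ℤ => (z : ℚ)) := ⟨_, rfl⟩
    have hAne : A.Nonempty := by
      rw [hA]
      exact ⟨0, mem_image.2 ⟨0, mem_Icc.2 ⟨by omega, by omega⟩, Int.cast_zero⟩⟩
    have hAcard : (A.card : ℝ) ≤ 3 * X := by
      have h1 : A.card ≤ 2 * X + 1 := by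
        rw [hA]
        refine card_image_le.trans ?_
        rw [Int.card_Icc]
        omega
      have h2 : (A.card : ℝ) ≤ 2 * X + 1 := by exact_mod_cast h1
      have h3 : (1 : ℝ) ≤ X := by exact_mod_cast hX
      linarith
    have h1 := hP A hAne
    have hsub : mat '' {v : Fin (n * k) → ℤ | (∀ t, |v t| ≤ (X : ℤ)) ∧ v ∈ {v : Fin (n * k) → ℤ | P (mat v)}} ⊆
        (((Fintype.piFinset fun _ : Fin n => Fintype.piFinset fun _ : Fin k => A).filter (fun a => P a) :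
          Finset (Fin n → Fin k → ℚ)) : Set (Fin n → Fin k → ℚ)) := by
      rintro _ ⟨v, ⟨hv1, hv2⟩, rfl⟩
      rw [mem_coe, mem_filter, Fintype.mem_piFinset]
      refine ⟨fun j => ?_, hv2⟩
      rw [Fintype.mem_piFinset]
      intro i
      rw [hA]
      refine mem_image.2 ⟨v (finProdFinEquiv (j, i)), mem_Icc.2 ?_, rfl⟩
      exact abs_le.1 (hv1 _)
    have h2 := Set.ncard_le_ncard hsub (Finset.finite_toSet _)
    rw [Set.ncard_image_of_injective _ mat_injective, Set.ncard_coe_finset] at h2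
    calc (({v : Fin (n * k) → ℤ | (∀ t, |v t| ≤ (X : ℤ)) ∧ v ∈ {v : Fin (n * k) → ℤ | P (mat v)}}.ncard : ℕ) : ℝ)
        ≤ (((Fintype.piFinset fun _ : Fin n => Fintype.piFinset fun _ : Fin k => A).filter (fun a => P a)).card : ℝ) := by
          exact_mod_cast h2
      _ ≤ C₀ * (A.card : ℝ) ^ ((n : ℝ) * k - δ * k) := h1
      _ ≤ C₀ * (3 * (X : ℝ)) ^ ((n : ℝ) * k - δ * k) := by
          gcongr
      _ = C₀ * 3 ^ ((n : ℝ) * k - δ * k) * (X : ℝ) ^ ((n : ℝ) * k - δ * k) := by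
          rw [Real.mul_rpow (by norm_num) (Nat.cast_nonneg X)]
          ring
  obtain ⟨E, hE, hE2⟩ := approx_vectors hnk _ hs hT β hτ
  refine ⟨E, ?_, fun α hα c => ?_⟩
  · have e1 : (((n * k : ℕ) : ℝ)) = (n : ℝ) * k := by push_cast; ring
    rw [e1] at hE
    exact hE
  · obtain ⟨Q, hQ⟩ := hE2 α hα c
    exact ⟨Q, fun v hv h1 => hQ v hv h1⟩

/-- a smaller `δ` -/
theorem shrink {n k : ℕ} {c : ℕ} {C₀ δ : ℝ} (hC₀ : 0 ≤ C₀) (hc : 1 ≤ c) :
    C₀ * (c : ℝ) ^ ((n : ℝ) * k - δ * k) ≤ C₀ * (c : ℝ) ^ ((n : ℝ) * k - min δ 1 * k) := by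
  have h1 : (1 : ℝ) ≤ c := by exact_mod_cast hc
  refine mul_le_mul_of_nonneg_left (Real.rpow_le_rpow_of_exponent_le h1 ?_) hC₀
  have : min δ 1 * (k : ℝ) ≤ δ * k := mul_le_mul_of_nonneg_right (min_le_left _ _) (Nat.cast_nonneg k)
  linarith

end Pool.Agent.N671.DA
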