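import Pool.Agent.R479.DB.Lim

/-!
# Inhomogeneous simultaneous approximations with denominators in a thin set
-/

set_option autoImplicit false

namespace Pool.Agent.N671.DA

open Finset Classical

/-- `‖q α_j - β_j‖ ≤ r` for all `j`, `‖x‖` the distance of `x` to the nearest integer -/
def Solves {m : ℕ} (α β : Fin m → ℝ) (q : ℕ) (r : ℝ) : Prop :=
  ∀ j, ∃ p : ℤ, |(q : ℝ) * α j - β j - p| ≤ r

lemma Solves.mono {m : ℕ} {α β : Fin m → ℝ} {q : ℕ} {r r' : ℝ} (h : Solves α β q r) (hr : r ≤ r') :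
    Solves α β q r' := fun j => by
  obtain ⟨p, hp⟩ := h j
  exact ⟨p, hp.trans hr⟩

theorem dim_core {m : ℕ} (P : Set ℕ) {σ τ : ℝ} (hσ : 0 ≤ σ) (hτ : 0 < τ)
    (hP : ∀ ε : ℝ, 0 < ε → ∃ C : ℝ, ∀ X : ℕ, 1 ≤ X →
      (((Icc 1 X).filter (fun q => q ∈ P)).card : ℝ) ≤ C * (X : ℝ) ^ (σ + ε))
    (β : Fin m → ℝ) (R c : ℕ) :
    dimH {α : Fin m → ℝ | ‖α‖ ≤ R ∧ {q : ℕ | q ∈ P ∧ Solves α β q (c * (q : ℝ) ^ (-τ))}.Infinite} ≤
      ENNReal.ofReal ((m + σ) / (1 + τ)) := by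
  apply ENNReal.le_of_forall_pos_le_add
  intro ε hε _
  have hε' : (0 : ℝ) < ε := by exact_mod_cast hε
  have h1τ : 0 < 1 + τ := by linarith
  rw [← ENNReal.ofReal_coe_nnreal (p := ε), ← ENNReal.ofReal_add (by positivity) hε'.le]
  set D : ℝ := (m + σ) / (1 + τ) + ε with hD
  have hD0 : 0 < D := by positivity
  have hDτ : (1 + τ) * D = m + σ + ε * (1 + τ) := by
    rw [hD]
    field_simp
  obtain ⟨C, hC⟩ := hP (ε * (1 + τ) / 2) (by positivity)
  obtain ⟨K, hK⟩ := exists_nat_ge ((R : ℝ) + ‖β‖ + c)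
  set ι : Type := {t : ℕ × (Fin m → ℤ) // t.1 ∈ P ∧ 1 ≤ t.1 ∧ ∀ j, |(t.2 j : ℝ)| ≤ K * t.1} with hι
  have hpos : ∀ t : ι, (1 : ℝ) ≤ (t.1.1 : ℝ) := fun t => by exact_mod_cast t.2.2.1
  set U : ι → Set (Fin m → ℝ) := fun t =>
    {α | ∀ j, |(t.1.1 : ℝ) * α j - β j - t.1.2 j| ≤ c * (t.1.1 : ℝ) ^ (-τ)} with hU
  have h1 := Pool.Agent.R479.DB.dimH_limsup U (fun t => (2 * c + 1) * (t.1.1 : ℝ) ^ (-(1 + τ))) (fun t => by
      have := hpos t
      positivity) (fun t => by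
        have ht := hpos t
        have ht0 : (0 : ℝ) < (t.1.1 : ℝ) := by linarith
        refine Metric.ediam_le fun x hx y hy => ?_
        rw [edist_dist]
        apply ENNReal.ofReal_le_ofReal
        rw [dist_pi_le_iff (by positivity)]
        intro j
        rw [Real.dist_eq]
        have a1 := hx j
        have a2 := hy j
        have a3 : |(t.1.1 : ℝ) * (x j - y j)| ≤ 2 * c * (t.1.1 : ℝ) ^ (-τ) := by
          have : (t.1.1 : ℝ) * (x j - y j) = ((t.1.1 : ℝ) * x j - β j - t.1.2 j) -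
              ((t.1.1 : ℝ) * y j - β j - t.1.2 j) := by ring
          rw [this]
          refine (abs_sub _ _).trans ?_
          linarith
        rw [abs_mul, abs_of_pos ht0] at a3
        have a4 : (t.1.1 : ℝ) ^ (-(1 + τ)) = (t.1.1 : ℝ) ^ (-τ) / t.1.1 := by
          rw [show -(1 + τ) = -τ - 1 by ring, Real.rpow_sub_one ht0.ne']
        rw [a4]
        have a5 : |x j - y j| ≤ 2 * c * (t.1.1 : ℝ) ^ (-τ) / t.1.1 := by
          rw [le_div_iff₀ ht0]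
          linarith
        refine a5.trans ?_
        rw [mul_div_assoc]
        have : 0 ≤ (t.1.1 : ℝ) ^ (-τ) / t.1.1 := by positivity
        nlinarith) hD0 (by
      have h2 := Pool.Agent.R479.DA.summable_heights (ι := ι) (fun t => (t.1.1 : ℝ)) hpos
        (s := m + σ + ε * (1 + τ) / 2) (p := (1 + τ) * D) (C := |C| * (2 * K + 1) ^ m)
        (by rw [hDτ]; nlinarith [mul_pos hε' h1τ]) (by positivity) (by
          intro X hX
          set F : Finset (ℕ × (Fin m → ℤ)) := ((Icc 1 ⌊X⌋₊).filter (fun q => q ∈ P)) ×ˢ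
            Fintype.piFinset (fun _ : Fin m => Icc (-((K * ⌊X⌋₊ : ℕ) : ℤ)) ((K * ⌊X⌋₊ : ℕ) : ℤ)) with hF
          have hmaps : Set.MapsTo (Subtype.val : ι → ℕ × (Fin m → ℤ)) {t | (t.1.1 : ℝ) ≤ X} (F : Set _) := by
            intro t ht
            have ht1 : t.1.1 ≤ ⌊X⌋₊ := Nat.le_floor ht
            rw [hF, Finset.mem_coe, mem_product, mem_filter, mem_Icc, Fintype.mem_piFinset]
            refine ⟨⟨⟨t.2.2.1, ht1⟩, t.2.1⟩, fun j => ?_⟩
            have h3 := t.2.2.2 j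
            have h4 : |(t.1.2 j : ℝ)| ≤ ((K * ⌊X⌋₊ : ℕ) : ℝ) := by
              refine h3.trans ?_
              push_cast
              have : (t.1.1 : ℝ) ≤ ⌊X⌋₊ := by exact_mod_cast ht1
              gcongr
            have h5 : |t.1.2 j| ≤ ((K * ⌊X⌋₊ : ℕ) : ℤ) := by exact_mod_cast h4
            rw [mem_Icc]
            exact abs_le.1 h5
          have hinj : Set.InjOn (Subtype.val : ι → ℕ × (Fin m → ℤ)) {t | (t.1.1 : ℝ) ≤ X} :=
            Subtype.val_injective.injOn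
          have hfin : {t : ι | (t.1.1 : ℝ) ≤ X}.Finite := (Finset.finite_toSet F).of_injOn hmaps hinj
          refine ⟨hfin, ?_⟩
          have h3 := Set.ncard_le_ncard_of_injOn _ hmaps hinj (Finset.finite_toSet F)
          rw [Set.ncard_coe_finset, hF, card_product, Fintype.card_piFinset] at h3
          simp only [Int.card_Icc, prod_const, card_univ, Fintype.card_fin] at h3
          have hX1 : 1 ≤ ⌊X⌋₊ := Nat.le_floor (by exact_mod_cast hX)
          have hXf : (⌊X⌋₊ : ℝ) ≤ X := Nat.floor_le (by linarith)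
          have h4 := hC ⌊X⌋₊ hX1
          have h5 : ((((K * ⌊X⌋₊ : ℕ) : ℤ) + 1 - -((K * ⌊X⌋₊ : ℕ) : ℤ)).toNat : ℝ) ≤ (2 * K + 1) * X := by
            have : (((K * ⌊X⌋₊ : ℕ) : ℤ) + 1 - -((K * ⌊X⌋₊ : ℕ) : ℤ)).toNat = 2 * (K * ⌊X⌋₊) + 1 := by omega
            rw [this]
            push_cast
            have : (K : ℝ) * ⌊X⌋₊ ≤ K * X := by gcongr
            nlinarith
          calc (({t : ι | (t.1.1 : ℝ) ≤ X}.ncard : ℕ) : ℝ)
              ≤ (((Icc 1 ⌊X⌋₊).filter (fun q => q ∈ P)).card : ℝ) *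
                ((((K * ⌊X⌋₊ : ℕ) : ℤ) + 1 - -((K * ⌊X⌋₊ : ℕ) : ℤ)).toNat : ℝ) ^ m := by exact_mod_cast h3
            _ ≤ (|C| * X ^ (σ + ε * (1 + τ) / 2)) * ((2 * K + 1) * X) ^ m := by
                gcongr
                refine h4.trans ?_
                calc C * (⌊X⌋₊ : ℝ) ^ (σ + ε * (1 + τ) / 2) ≤ |C| * (⌊X⌋₊ : ℝ) ^ (σ + ε * (1 + τ) / 2) :=
                      mul_le_mul_of_nonneg_right (le_abs_self C) (by positivity)
                  _ ≤ |C| * X ^ (σ + ε * (1 + τ) / 2) := by gcongr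
            _ = |C| * (2 * K + 1) ^ m * X ^ (m + σ + ε * (1 + τ) / 2) := by
                have hX0 : (0 : ℝ) < X := by linarith
                rw [mul_pow, show (m : ℝ) + σ + ε * (1 + τ) / 2 = (σ + ε * (1 + τ) / 2) + m by ring,
                  Real.rpow_add hX0 (σ + ε * (1 + τ) / 2) (m : ℝ), Real.rpow_natCast]
                ring)
      refine (h2.mul_left (((2 * c + 1 : ℝ)) ^ D)).congr fun t => ?_
      have ht := hpos t
      have ht0 : (0 : ℝ) < (t.1.1 : ℝ) := by linarith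
      rw [Real.mul_rpow (by positivity) (by positivity), ← Real.rpow_mul ht0.le]
      congr 2
      ring)
  refine le_trans (dimH_mono ?_) h1
  rintro α ⟨hα, hα2⟩
  simp only [Set.mem_ofPred_eq]
  intro hfin
  apply hα2
  have hf2 := hfin.image (fun t : ι => t.1.1)
  refine (hf2.union (Set.finite_singleton 0)).subset ?_
  rintro q ⟨hqP, hq⟩
  rcases Nat.eq_zero_or_pos q with h0 | h0
  · right
    exact h0
  left
  choose p hp using hq
  have hq1 : (1 : ℝ) ≤ q := by exact_mod_cast h0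
  have hqτ : (q : ℝ) ^ (-τ) ≤ 1 := Real.rpow_le_one_of_one_le_of_nonpos hq1 (by linarith)
  refine ⟨⟨(q, p), hqP, h0, fun j => ?_⟩, fun j => hp j, rfl⟩
  have e1 := hp j
  have e2 : |α j| ≤ R := (norm_le_pi_norm α j).trans hα
  have e3 : |β j| ≤ ‖β‖ := norm_le_pi_norm β j
  have e4 : (p j : ℝ) = q * α j - β j - ((q : ℝ) * α j - β j - p j) := by ring
  have e5 : (c : ℝ) * (q : ℝ) ^ (-τ) ≤ c := by
    have : (0 : ℝ) ≤ c := Nat.cast_nonneg c
    nlinarith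
  have e6 : |(p j : ℝ)| ≤ q * R + ‖β‖ + c := by
    rw [e4]
    refine (abs_sub _ _).trans ?_
    have : |(q : ℝ) * α j - β j| ≤ q * R + ‖β‖ := by
      refine (abs_sub _ _).trans ?_
      rw [abs_mul, abs_of_nonneg (by linarith : (0 : ℝ) ≤ q)]
      gcongr
    linarith
  refine e6.trans ?_
  simp only
  have e7 : 0 ≤ ‖β‖ := norm_nonneg _
  have e8 : (0 : ℝ) ≤ c := Nat.cast_nonneg c
  have e9 : (0 : ℝ) ≤ R := Nat.cast_nonneg R
  calc (q : ℝ) * R + ‖β‖ + c ≤ q * R + q * ‖β‖ + q * c := by nlinarith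
    _ = (R + ‖β‖ + c) * q := by ring
    _ ≤ K * q := by gcongr

/-- **Denominators in a thin set.** -/
theorem dim_nat {m : ℕ} (P : Set ℕ) {σ τ : ℝ} (hσ : 0 ≤ σ) (hτ : 0 < τ)
    (hP : ∀ ε : ℝ, 0 < ε → ∃ C : ℝ, ∀ X : ℕ, 1 ≤ X →
      (((Icc 1 X).filter (fun q => q ∈ P)).card : ℝ) ≤ C * (X : ℝ) ^ (σ + ε))
    (β : Fin m → ℝ) :
    ∃ E : Set (Fin m → ℝ), dimH E ≤ ENNReal.ofReal ((m + σ) / (1 + τ)) ∧
      ∀ α, α ∉ E → ∀ c : ℝ, {q : ℕ | q ∈ P ∧ Solves α β q (c * (q : ℝ) ^ (-τ))}.Finite := by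
  refine ⟨⋃ (R : ℕ) (c : ℕ), {α : Fin m → ℝ | ‖α‖ ≤ R ∧
    {q : ℕ | q ∈ P ∧ Solves α β q (c * (q : ℝ) ^ (-τ))}.Infinite}, ?_, fun α hα c => ?_⟩
  · rw [dimH_iUnion]
    refine iSup_le fun R => ?_
    rw [dimH_iUnion]
    exact iSup_le fun c => dim_core P hσ hτ hP β R c
  · by_contra hcon
    apply hα
    obtain ⟨R, hR⟩ := exists_nat_ge ‖α‖
    obtain ⟨c', hc'⟩ := exists_nat_ge c
    refine Set.mem_iUnion.2 ⟨R, Set.mem_iUnion.2 ⟨c', hR, ?_⟩⟩
    refine Set.Infinite.mono ?_ hcon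
    rintro q ⟨h1, h2⟩
    refine ⟨h1, h2.mono ?_⟩
    have : (0 : ℝ) ≤ (q : ℝ) ^ (-τ) := by positivity
    gcongr

end Pool.Agent.N671.DA
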