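import Pool.Agent.N671.DA.Nat

/-!
# Systems of linear forms: approximation vectors in a thin set
-/

set_option autoImplicit false

namespace Pool.Agent.N671.DA

open Finset Classical

/-- `‖∑_i q_i α_(i,j) - β_j‖ ≤ r` for all `j`, `‖x‖` the distance of `x` to the nearest integer -/
def Near {k m : ℕ} (α : Fin k × Fin m → ℝ) (β : Fin m → ℝ) (q : Fin k → ℤ) (r : ℝ) : Prop :=
  ∀ j, ∃ p : ℤ, |∑ i, (q i : ℝ) * α (i, j) - β j - p| ≤ r

lemma Near.mono {k m : ℕ} {α : Fin k × Fin m → ℝ} {β : Fin m → ℝ} {q : Fin k → ℤ} {r r' : ℝ} (h : Near α β q r)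
    (hr : r ≤ r') : Near α β q r' := fun j => by
  obtain ⟨p, hp⟩ := h j
  exact ⟨p, hp.trans hr⟩

/-- `W` has at most `C X ^ (s + ε)` elements with all coordinates at most `X` in absolute value -/
def Thin {k : ℕ} (W : Set (Fin k → ℤ)) (s : ℝ) : Prop :=
  ∀ ε : ℝ, 0 < ε → ∃ C : ℝ, ∀ X : ℝ, 1 ≤ X →
    (({q : Fin k → ℤ | q ∈ W ∧ ∀ i, |(q i : ℝ)| ≤ X}.ncard : ℕ) : ℝ) ≤ C * X ^ (s + ε)

lemma box_fin {ι : Type*} [Fintype ι] (X : ℝ) : {q : ι → ℤ | ∀ i, |(q i : ℝ)| ≤ X}.Finite := by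
  classical
  refine (Finset.finite_toSet (Fintype.piFinset (fun _ : ι => Icc (-⌊X⌋) ⌊X⌋))).subset ?_
  intro q hq
  rw [Finset.mem_coe, Fintype.mem_piFinset]
  intro i
  have h1 := abs_le.1 (hq i)
  rw [mem_Icc]
  refine ⟨?_, Int.le_floor.2 h1.2⟩
  have h2 : -q i ≤ ⌊X⌋ := Int.le_floor.2 (by push_cast; linarith [h1.1])
  linarith

lemma box_card {ι : Type*} [Fintype ι] (X : ℝ) (hX : 0 ≤ X) :
    (({q : ι → ℤ | ∀ i, |(q i : ℝ)| ≤ X}.ncard : ℕ) : ℝ) ≤ (2 * X + 1) ^ (Fintype.card ι) := by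
  classical
  have hsub : {q : ι → ℤ | ∀ i, |(q i : ℝ)| ≤ X} ⊆
      ((Fintype.piFinset (fun _ : ι => Icc (-⌊X⌋) ⌊X⌋) : Finset (ι → ℤ)) : Set (ι → ℤ)) := by
    intro q hq
    rw [Finset.mem_coe, Fintype.mem_piFinset]
    intro i
    have h1 := abs_le.1 (hq i)
    rw [mem_Icc]
    refine ⟨?_, Int.le_floor.2 h1.2⟩
    have h2 : -q i ≤ ⌊X⌋ := Int.le_floor.2 (by push_cast; linarith [h1.1])
    linarith
  have h1 := Set.ncard_le_ncard hsub (Finset.finite_toSet _)
  rw [Set.ncard_coe_finset, Fintype.card_piFinset, prod_const, card_univ, Int.card_Icc] at h1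
  have h0 : 0 ≤ ⌊X⌋ := Int.floor_nonneg.2 hX
  have h2 : (((⌊X⌋ + 1 - -⌊X⌋).toNat : ℕ) : ℝ) ≤ 2 * X + 1 := by
    have h3 : (((⌊X⌋ + 1 - -⌊X⌋).toNat : ℕ) : ℤ) = 2 * ⌊X⌋ + 1 := by
      rw [Int.toNat_of_nonneg (by linarith)]
      ring
    have h4 : (((⌊X⌋ + 1 - -⌊X⌋).toNat : ℕ) : ℝ) = 2 * (⌊X⌋ : ℝ) + 1 := by exact_mod_cast h3
    rw [h4]
    have := Int.floor_le X
    linarith
  calc (({q : ι → ℤ | ∀ i, |(q i : ℝ)| ≤ X}.ncard : ℕ) : ℝ)
      ≤ (((⌊X⌋ + 1 - -⌊X⌋).toNat : ℕ) : ℝ) ^ (Fintype.card ι) := by exact_mod_cast h1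
    _ ≤ _ := by gcongr

theorem sys_core {k m : ℕ} (i0 : Fin k) (W : Set (Fin k → ℤ)) (hW0 : ∀ q ∈ W, ∀ i, |(q i : ℝ)| ≤ |(q i0 : ℝ)|)
    {s τ : ℝ} (hs : 0 ≤ s) (hτ : 0 < τ) (hW : Thin W s) (β : Fin m → ℝ) (R c : ℕ) :
    dimH {α : Fin k × Fin m → ℝ | ‖α‖ ≤ R ∧
      {q : Fin k → ℤ | q ∈ W ∧ Near α β q (c * |(q i0 : ℝ)| ^ (-τ))}.Infinite} ≤
      ENNReal.ofReal (((k : ℝ) - 1) * m + (m + s) / (1 + τ)) := by
  apply ENNReal.le_of_forall_pos_le_add
  intro ε hε _
  have hε' : (0 : ℝ) < ε := by exact_mod_cast hε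
  have h1τ : 0 < 1 + τ := by linarith
  have hk : 1 ≤ k := by
    have := i0.2
    omega
  have hk1 : (1 : ℝ) ≤ k := by exact_mod_cast hk
  have hkm : 0 ≤ ((k : ℝ) - 1) * m := mul_nonneg (by linarith) (Nat.cast_nonneg m)
  have hpos0 : 0 ≤ (m + s) / (1 + τ) := by positivity
  rw [← ENNReal.ofReal_coe_nnreal (p := ε), ← ENNReal.ofReal_add (by linarith) hε'.le]
  set D : ℝ := ((k : ℝ) - 1) * m + (m + s) / (1 + τ) + ε with hD
  have hD0 : 0 < D := by linarith
  have hDτ : (1 + τ) * D = (1 + τ) * (((k : ℝ) - 1) * m) + m + s + ε * (1 + τ) := by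
    rw [hD]
    field_simp
    ring
  obtain ⟨C, hC⟩ := hW (ε * (1 + τ) / 2) (by positivity)
  obtain ⟨K, hK⟩ := exists_nat_ge ((k : ℝ) * R + ‖β‖ + c + 1)
  have hK1 : (R : ℝ) + 1 ≤ K := by
    have h1 : (0 : ℝ) ≤ ‖β‖ := norm_nonneg _
    have h2 : (0 : ℝ) ≤ c := Nat.cast_nonneg c
    have h3 : (0 : ℝ) ≤ R := Nat.cast_nonneg R
    nlinarith
  set J : Type := {i : Fin k // i ≠ i0} × Fin m with hJ
  set ι : Type := {t : (Fin k → ℤ) × (Fin m → ℤ) × (J → ℤ) // t.1 ∈ W ∧ (1 : ℝ) ≤ |(t.1 i0 : ℝ)| ∧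
    (∀ j, |(t.2.1 j : ℝ)| ≤ K * |(t.1 i0 : ℝ)|) ∧ ∀ x, |(t.2.2 x : ℝ)| ≤ K * |(t.1 i0 : ℝ)| ^ (1 + τ)} with hι
  have hpos : ∀ t : ι, (1 : ℝ) ≤ |(t.1.1 i0 : ℝ)| := fun t => t.2.2.1
  set U : ι → Set (Fin k × Fin m → ℝ) := fun t =>
    {α | (∀ j, |∑ i, (t.1.1 i : ℝ) * α (i, j) - β j - t.1.2.1 j| ≤ c * |(t.1.1 i0 : ℝ)| ^ (-τ)) ∧
      ∀ x : J, |α (x.1.1, x.2) * |(t.1.1 i0 : ℝ)| ^ (1 + τ) - t.1.2.2 x| ≤ 1} with hU
  have h1 := Pool.Agent.R479.DB.dimH_limsup U (fun t => (2 * c + 2 * k) * |(t.1.1 i0 : ℝ)| ^ (-(1 + τ))) (fun t => by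
      have := hpos t
      positivity) (fun t => by
        have ht := hpos t
        obtain ⟨H, hH⟩ : ∃ H : ℝ, H = |(t.1.1 i0 : ℝ)| := ⟨_, rfl⟩
        rw [← hH] at ht ⊢
        have ht0 : (0 : ℝ) < H := by linarith
        refine Metric.ediam_le fun x hx y hy => ?_
        rw [edist_dist]
        apply ENNReal.ofReal_le_ofReal
        rw [dist_pi_le_iff (by positivity)]
        rintro ⟨i, j⟩
        rw [Real.dist_eq]
        obtain ⟨hx1, hx2⟩ := hx
        obtain ⟨hy1, hy2⟩ := hy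
        have hτH : H ^ (-(1 + τ)) = H ^ (-τ) / H := by
          rw [show -(1 + τ) = -τ - 1 by ring, Real.rpow_sub_one ht0.ne']
        have hinv : H ^ (-(1 + τ)) * H ^ (1 + τ) = 1 := by
          rw [← Real.rpow_add ht0]
          simp
        have hHn : 0 < H ^ (-(1 + τ)) := by positivity
        -- the coordinates different from i0
        have hother : ∀ i' : Fin k, i' ≠ i0 → |x (i', j) - y (i', j)| ≤ 2 * H ^ (-(1 + τ)) := by
          intro i' hi'
          have a1 := hx2 (⟨i', hi'⟩, j)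
          have a2 := hy2 (⟨i', hi'⟩, j)
          rw [← hH] at a1 a2
          simp only at a1 a2
          have a3 : |(x (i', j) - y (i', j)) * H ^ (1 + τ)| ≤ 2 := by
            have : (x (i', j) - y (i', j)) * H ^ (1 + τ) =
                (x (i', j) * H ^ (1 + τ) - t.1.2.2 (⟨i', hi'⟩, j)) -
                  (y (i', j) * H ^ (1 + τ) - t.1.2.2 (⟨i', hi'⟩, j)) := by ring
            rw [this]
            refine (abs_sub _ _).trans ?_
            linarith
          rw [abs_mul, abs_of_pos (by positivity : 0 < H ^ (1 + τ))] at a3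
          calc |x (i', j) - y (i', j)| = |x (i', j) - y (i', j)| * H ^ (1 + τ) * H ^ (-(1 + τ)) := by
                rw [mul_assoc, mul_comm (H ^ (1 + τ)), hinv, mul_one]
            _ ≤ 2 * H ^ (-(1 + τ)) := by gcongr
        by_cases hi : i = i0
        · subst hi
          have a1 := hx1 j
          have a2 := hy1 j
          rw [← hH] at a1 a2
          have a3 : |∑ i', (t.1.1 i' : ℝ) * (x (i', j) - y (i', j))| ≤ 2 * c * H ^ (-τ) := by
            have : ∑ i', (t.1.1 i' : ℝ) * (x (i', j) - y (i', j)) =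
                (∑ i', (t.1.1 i' : ℝ) * x (i', j) - β j - t.1.2.1 j) -
                  (∑ i', (t.1.1 i' : ℝ) * y (i', j) - β j - t.1.2.1 j) := by
              rw [sub_sub_sub_cancel_right, sub_sub_sub_cancel_right, ← Finset.sum_sub_distrib]
              refine Finset.sum_congr rfl fun i' _ => by ring
            rw [this]
            refine (abs_sub _ _).trans ?_
            linarith
          rw [← Finset.add_sum_erase _ _ (mem_univ i)] at a3
          have a4 : |∑ i' ∈ univ.erase i, (t.1.1 i' : ℝ) * (x (i', j) - y (i', j))| ≤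
              (k - 1 : ℝ) * (2 * H ^ (-τ)) := by
            refine (abs_sum_le_sum_abs _ _).trans ?_
            have : ∀ i' ∈ univ.erase i, |(t.1.1 i' : ℝ) * (x (i', j) - y (i', j))| ≤ 2 * H ^ (-τ) := by
              intro i' hi'
              rw [abs_mul]
              have b1 := hW0 t.1.1 t.2.1 i'
              rw [← hH] at b1
              have b2 := hother i' (ne_of_mem_erase hi')
              rw [hτH] at b2
              calc |(t.1.1 i' : ℝ)| * |x (i', j) - y (i', j)| ≤ H * (2 * (H ^ (-τ) / H)) := by gcongr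
                _ = 2 * H ^ (-τ) := by
                    field_simp
            refine (sum_le_card_nsmul _ _ _ this).trans ?_
            rw [card_erase_of_mem (mem_univ i), card_univ, Fintype.card_fin, nsmul_eq_mul, Nat.cast_sub hk,
              Nat.cast_one]
          have a5 : H * |x (i, j) - y (i, j)| ≤ 2 * c * H ^ (-τ) + (k - 1 : ℝ) * (2 * H ^ (-τ)) := by
            have b1 : H * |x (i, j) - y (i, j)| = |(t.1.1 i : ℝ) * (x (i, j) - y (i, j))| := by
              rw [abs_mul, ← hH]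
            rw [b1]
            have b2 : (t.1.1 i : ℝ) * (x (i, j) - y (i, j)) =
                ((t.1.1 i : ℝ) * (x (i, j) - y (i, j)) +
                  ∑ i' ∈ univ.erase i, (t.1.1 i' : ℝ) * (x (i', j) - y (i', j))) -
                ∑ i' ∈ univ.erase i, (t.1.1 i' : ℝ) * (x (i', j) - y (i', j)) := by ring
            rw [b2]
            refine (abs_sub _ _).trans ?_
            linarith
          rw [hτH]
          have a6 : 0 < H ^ (-τ) := by positivity
          have a7 : |x (i, j) - y (i, j)| ≤ (2 * c * H ^ (-τ) + (k - 1 : ℝ) * (2 * H ^ (-τ))) / H := by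
            rw [le_div_iff₀ ht0]
            linarith
          refine a7.trans ?_
          rw [← mul_div_assoc]
          gcongr
          nlinarith
        · refine (hother i hi).trans ?_
          have : (2 : ℝ) ≤ 2 * c + 2 * k := by
            have : (0 : ℝ) ≤ c := Nat.cast_nonneg c
            linarith
          gcongr) hD0 (by
      have h2 := Pool.Agent.R479.DA.summable_heights (ι := ι) (fun t => |(t.1.1 i0 : ℝ)|) hpos
        (s := (1 + τ) * (((k : ℝ) - 1) * m) + m + s + ε * (1 + τ) / 2) (p := (1 + τ) * D)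
        (C := |C| * (2 * K + 1) ^ m * (2 * K + 1) ^ ((k - 1) * m))
        (by rw [hDτ]; nlinarith [mul_pos hε' h1τ]) (by positivity) (by
          intro X hX
          have hX0 : (0 : ℝ) < X := by linarith
          set F : Set ((Fin k → ℤ) × (Fin m → ℤ) × (J → ℤ)) :=
            {q : Fin k → ℤ | q ∈ W ∧ ∀ i, |(q i : ℝ)| ≤ X} ×ˢ
              ({p : Fin m → ℤ | ∀ j, |(p j : ℝ)| ≤ K * X} ×ˢ
                {z : J → ℤ | ∀ x, |(z x : ℝ)| ≤ K * X ^ (1 + τ)}) with hF
          have hW1 : {q : Fin k → ℤ | q ∈ W ∧ ∀ i, |(q i : ℝ)| ≤ X}.Finite :=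
            (box_fin (ι := Fin k) X).subset fun q hq => hq.2
          have hFfin : F.Finite := hW1.prod ((box_fin _).prod (box_fin _))
          have hmaps : Set.MapsTo (Subtype.val : ι → _) {t | |(t.1.1 i0 : ℝ)| ≤ X} F := by
            intro t ht
            have ht1 : |(t.1.1 i0 : ℝ)| ≤ X := ht
            have ht2 := hpos t
            refine ⟨⟨t.2.1, fun i => (hW0 _ t.2.1 i).trans ht1⟩, fun j => (t.2.2.2.1 j).trans ?_,
              fun x => (t.2.2.2.2 x).trans ?_⟩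
            · gcongr
            · gcongr
          have hinj : Set.InjOn (Subtype.val : ι → _) {t | |(t.1.1 i0 : ℝ)| ≤ X} :=
            Subtype.val_injective.injOn
          have hfin : {t : ι | |(t.1.1 i0 : ℝ)| ≤ X}.Finite := hFfin.of_injOn hmaps hinj
          refine ⟨hfin, ?_⟩
          have h3 := Set.ncard_le_ncard_of_injOn _ hmaps hinj hFfin
          rw [hF, Set.ncard_prod, Set.ncard_prod] at h3
          have h4 := hC X hX
          have h5 := box_card (ι := Fin m) (K * X) (by positivity)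
          have h6 := box_card (ι := J) (K * X ^ (1 + τ)) (by positivity)
          have hJc : Fintype.card J = (k - 1) * m := by
            change Fintype.card ({i : Fin k // i ≠ i0} × Fin m) = (k - 1) * m
            rw [Fintype.card_prod, Fintype.card_fin]
            congr 1
            have := Fintype.card_subtype_compl (fun i : Fin k => i = i0)
            rw [Fintype.card_fin, Fintype.card_subtype_eq] at this
            convert this
          rw [Fintype.card_fin] at h5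
          rw [hJc] at h6
          have hXτ : 1 ≤ X ^ (1 + τ) := Real.one_le_rpow hX h1τ.le
          have h7 : (2 * (K * X) + 1) ≤ (2 * K + 1) * X := by nlinarith
          have h8 : (2 * (K * X ^ (1 + τ)) + 1) ≤ (2 * K + 1) * X ^ (1 + τ) := by nlinarith
          have h4' : (({q : Fin k → ℤ | q ∈ W ∧ ∀ i, |(q i : ℝ)| ≤ X}.ncard : ℕ) : ℝ) ≤
              |C| * X ^ (s + ε * (1 + τ) / 2) :=
            h4.trans (mul_le_mul_of_nonneg_right (le_abs_self C) (by positivity))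
          have h5' := h5.trans (pow_le_pow_left₀ (by positivity) h7 m)
          have h6' := h6.trans (pow_le_pow_left₀ (by positivity) h8 ((k - 1) * m))
          calc (({t : ι | |(t.1.1 i0 : ℝ)| ≤ X}.ncard : ℕ) : ℝ)
              ≤ (({q : Fin k → ℤ | q ∈ W ∧ ∀ i, |(q i : ℝ)| ≤ X}.ncard : ℕ) : ℝ) *
                ((({p : Fin m → ℤ | ∀ j, |(p j : ℝ)| ≤ K * X}.ncard : ℕ) : ℝ) *
                  (({z : J → ℤ | ∀ x, |(z x : ℝ)| ≤ K * X ^ (1 + τ)}.ncard : ℕ) : ℝ)) := by exact_mod_cast h3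
            _ ≤ (|C| * X ^ (s + ε * (1 + τ) / 2)) * (((2 * K + 1) * X) ^ m *
                ((2 * K + 1) * X ^ (1 + τ)) ^ ((k - 1) * m)) := by gcongr
            _ = |C| * (2 * K + 1) ^ m * (2 * K + 1) ^ ((k - 1) * m) *
                X ^ ((1 + τ) * (((k : ℝ) - 1) * m) + m + s + ε * (1 + τ) / 2) := by
                have e1 : (X ^ (1 + τ)) ^ ((k - 1) * m) = X ^ ((1 + τ) * (((k : ℝ) - 1) * m)) := by
                  rw [← Real.rpow_natCast, ← Real.rpow_mul hX0.le]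
                  congr 2
                  push_cast [Nat.cast_sub hk]
                  ring
                have e2 : X ^ ((1 + τ) * (((k : ℝ) - 1) * m) + m + s + ε * (1 + τ) / 2) =
                    X ^ ((1 + τ) * (((k : ℝ) - 1) * m)) * X ^ m * X ^ (s + ε * (1 + τ) / 2) := by
                  rw [← Real.rpow_natCast X m, ← Real.rpow_add hX0, ← Real.rpow_add hX0]
                  congr 1
                  ring
                rw [e2, mul_pow, mul_pow, e1]
                ring)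
      refine (h2.mul_left (((2 * c + 2 * k : ℝ)) ^ D)).congr fun t => ?_
      have ht := hpos t
      have ht0 : (0 : ℝ) < |(t.1.1 i0 : ℝ)| := by linarith
      rw [Real.mul_rpow (by positivity) (by positivity), ← Real.rpow_mul ht0.le]
      congr 2
      ring)
  refine le_trans (dimH_mono ?_) h1
  rintro α ⟨hα, hα2⟩
  simp only [Set.mem_ofPred_eq]
  intro hfin
  apply hα2
  have hf2 := hfin.image (fun t : ι => t.1.1)
  have hzero : {q : Fin k → ℤ | q ∈ W ∧ |(q i0 : ℝ)| < 1}.Finite :=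
    (box_fin (ι := Fin k) 1).subset fun q hq i => (hW0 q hq.1 i).trans hq.2.le
  refine (hf2.union hzero).subset ?_
  rintro q ⟨hqP, hq⟩
  rcases lt_or_ge (|(q i0 : ℝ)|) 1 with h0 | h0
  · right
    exact ⟨hqP, h0⟩
  left
  choose p hp using hq
  obtain ⟨H, hH⟩ : ∃ H : ℝ, H = |(q i0 : ℝ)| := ⟨_, rfl⟩
  have hH1 : 1 ≤ H := by rw [hH]; exact h0
  have hqτ : H ^ (-τ) ≤ 1 := Real.rpow_le_one_of_one_le_of_nonpos hH1 (by linarith)
  have hHτ : 1 ≤ H ^ (1 + τ) := Real.one_le_rpow hH1 h1τ.le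
  have e8 : (0 : ℝ) ≤ c := Nat.cast_nonneg c
  have e9 : (0 : ℝ) ≤ R := Nat.cast_nonneg R
  refine ⟨⟨(q, p, fun x : J => ⌊α (x.1.1, x.2) * H ^ (1 + τ)⌋), hqP, h0, fun j => ?_, fun x => ?_⟩,
    ⟨fun j => hp j, fun x => ?_⟩, rfl⟩
  · have e1 := hp j
    rw [← hH] at e1
    have e3 : |β j| ≤ ‖β‖ := norm_le_pi_norm β j
    have e4 : (p j : ℝ) = ∑ i, (q i : ℝ) * α (i, j) - β j - (∑ i, (q i : ℝ) * α (i, j) - β j - p j) := by ring
    have e5 : (c : ℝ) * H ^ (-τ) ≤ c := by nlinarith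
    have e10 : |∑ i, (q i : ℝ) * α (i, j)| ≤ k * (H * R) := by
      refine (abs_sum_le_sum_abs _ _).trans ?_
      have : ∀ i ∈ (univ : Finset (Fin k)), |(q i : ℝ) * α (i, j)| ≤ H * R := by
        intro i _
        rw [abs_mul]
        have b1 := hW0 q hqP i
        rw [← hH] at b1
        have b2 : |α (i, j)| ≤ R := (norm_le_pi_norm α (i, j)).trans hα
        gcongr
      refine (sum_le_card_nsmul _ _ _ this).trans ?_
      rw [card_univ, Fintype.card_fin, nsmul_eq_mul]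
    have e6 : |(p j : ℝ)| ≤ k * (H * R) + ‖β‖ + c := by
      rw [e4]
      refine (abs_sub _ _).trans ?_
      have : |∑ i, (q i : ℝ) * α (i, j) - β j| ≤ k * (H * R) + ‖β‖ := by
        refine (abs_sub _ _).trans ?_
        linarith
      linarith
    simp only
    rw [← hH]
    refine e6.trans ?_
    have e7 : 0 ≤ ‖β‖ := norm_nonneg _
    calc (k : ℝ) * (H * R) + ‖β‖ + c ≤ k * (H * R) + H * ‖β‖ + H * c + H := by nlinarith
      _ = (k * R + ‖β‖ + c + 1) * H := by ring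
      _ ≤ K * H := by gcongr
  · simp only
    rw [← hH]
    have b2 : |α (x.1.1, x.2)| ≤ R := (norm_le_pi_norm α (x.1.1, x.2)).trans hα
    have b3 := Int.floor_le (α (x.1.1, x.2) * H ^ (1 + τ))
    have b4 := Int.lt_floor_add_one (α (x.1.1, x.2) * H ^ (1 + τ))
    have b5 : |α (x.1.1, x.2) * H ^ (1 + τ)| ≤ R * H ^ (1 + τ) := by
      rw [abs_mul, abs_of_pos (by positivity : 0 < H ^ (1 + τ))]
      gcongr
    have b6 := abs_le.1 b5
    rw [abs_le]
    have b7 : (R : ℝ) * H ^ (1 + τ) + 1 ≤ K * H ^ (1 + τ) := by nlinarith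
    constructor <;> linarith [b6.1, b6.2]
  · simp only
    rw [← hH]
    have b3 := Int.floor_le (α (x.1.1, x.2) * H ^ (1 + τ))
    have b4 := Int.lt_floor_add_one (α (x.1.1, x.2) * H ^ (1 + τ))
    rw [abs_le]
    constructor <;> linarith

/-- **Systems of linear forms.** -/
theorem dim_sys {k m : ℕ} (hk : 1 ≤ k) (W : Set (Fin k → ℤ)) {s τ : ℝ} (hs : 0 ≤ s) (hτ : 0 < τ) (hW : Thin W s)
    (β : Fin m → ℝ) :
    ∃ E : Set (Fin k × Fin m → ℝ), dimH E ≤ ENNReal.ofReal (((k : ℝ) - 1) * m + (m + s) / (1 + τ)) ∧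
      ∀ α, α ∉ E → ∀ c : ℝ, {q : Fin k → ℤ | q ∈ W ∧ Near α β q (c * ‖q‖ ^ (-τ))}.Finite := by
  obtain ⟨V, hV⟩ : ∃ V : Fin k → Set (Fin k → ℤ),
    V = fun i0 => {q | q ∈ W ∧ ∀ i, |(q i : ℝ)| ≤ |(q i0 : ℝ)|} := ⟨_, rfl⟩
  have hVthin : ∀ i0, Thin (V i0) s := by
    intro i0 ε hε
    obtain ⟨C, hC⟩ := hW ε hε
    refine ⟨C, fun X hX => le_trans ?_ (hC X hX)⟩
    have hsub : {q : Fin k → ℤ | q ∈ V i0 ∧ ∀ i, |(q i : ℝ)| ≤ X} ⊆ {q : Fin k → ℤ | q ∈ W ∧ ∀ i, |(q i : ℝ)| ≤ X} := by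
      rintro q ⟨h1, h2⟩
      rw [hV] at h1
      exact ⟨h1.1, h2⟩
    exact_mod_cast Set.ncard_le_ncard hsub ((box_fin (ι := Fin k) X).subset fun q hq => hq.2)
  refine ⟨⋃ (i0 : Fin k) (R : ℕ) (c : ℕ), {α : Fin k × Fin m → ℝ | ‖α‖ ≤ R ∧
    {q : Fin k → ℤ | q ∈ V i0 ∧ Near α β q (c * |(q i0 : ℝ)| ^ (-τ))}.Infinite}, ?_, fun α hα c => ?_⟩
  · rw [dimH_iUnion]
    refine iSup_le fun i0 => ?_
    rw [dimH_iUnion]
    refine iSup_le fun R => ?_
    rw [dimH_iUnion]
    refine iSup_le fun c => sys_core i0 (V i0) (fun q hq => ?_) hs hτ (hVthin i0) β R c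
    rw [hV] at hq
    exact hq.2
  · by_contra hcon
    apply hα
    obtain ⟨R, hR⟩ := exists_nat_ge ‖α‖
    obtain ⟨c', hc'⟩ := exists_nat_ge c
    have hcover : {q : Fin k → ℤ | q ∈ W ∧ Near α β q (c * ‖q‖ ^ (-τ))} ⊆
        ⋃ i0 : Fin k, {q : Fin k → ℤ | q ∈ V i0 ∧ Near α β q (c' * |(q i0 : ℝ)| ^ (-τ))} := by
      rintro q ⟨h1, h2⟩
      haveI : Nonempty (Fin k) := ⟨⟨0, hk⟩⟩
      obtain ⟨i0, -, hi0⟩ := exists_max_image (univ : Finset (Fin k)) (fun i => |(q i : ℝ)|) univ_nonempty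
      have hn : ‖q‖ = |(q i0 : ℝ)| := by
        apply le_antisymm
        · rw [pi_norm_le_iff_of_nonneg (abs_nonneg _)]
          intro i
          rw [Int.norm_eq_abs]
          exact hi0 i (mem_univ i)
        · have := norm_le_pi_norm q i0
          rwa [Int.norm_eq_abs] at this
      refine Set.mem_iUnion.2 ⟨i0, ?_, ?_⟩
      · rw [hV]
        exact ⟨h1, fun i => hi0 i (mem_univ i)⟩
      · rw [hn] at h2
        refine h2.mono ?_
        have : (0 : ℝ) ≤ |(q i0 : ℝ)| ^ (-τ) := by positivity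
        gcongr
    have hinf : (⋃ i0 : Fin k, {q : Fin k → ℤ | q ∈ V i0 ∧ Near α β q (c' * |(q i0 : ℝ)| ^ (-τ))}).Infinite :=
      Set.Infinite.mono hcover hcon
    have hex : ∃ i0 : Fin k, {q : Fin k → ℤ | q ∈ V i0 ∧ Near α β q (c' * |(q i0 : ℝ)| ^ (-τ))}.Infinite := by
      by_contra hne
      push Not at hne
      exact hinf (Set.finite_iUnion hne)
    obtain ⟨i0, hi0⟩ := hex
    exact Set.mem_iUnion.2 ⟨i0, Set.mem_iUnion.2 ⟨R, Set.mem_iUnion.2 ⟨c', hR, hi0⟩⟩⟩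

end Pool.Agent.N671.DA
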